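import Pool.Agent.Helper25.HL.Goals4

/-!
# Project HL (MP_03bcbb_an): packet TSQ

The square of the operator is the projection onto the first coordinate.
-/

set_option autoImplicit false

open Filter Topology

noncomputable section

namespace Pool.Agent.Helper50.HL

open Pool.Agent.Helper25.HL

section coords

variable (P : ℕ → ℕ) (D : ∀ k, Lv (P k) (P (k + 1)))

theorem emb_same (k : ℕ) (z : LV (D k)) : emb P D k z k = z := by
  exact lp.single_apply_self (E := fun k => LV (D k)) 2 k z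

theorem emb_ne {k l : ℕ} (h : l ≠ k) (z : LV (D k)) : emb P D k z l = 0 := by
  exact lp.single_apply_ne (E := fun k => LV (D k)) 2 k z h

theorem T_coord (T : XX P D →L[ℂ] XX P D) (hT : ∀ y, HasSum (fun k => TT P D k y) (T y))
    (y : XX P D) (l : ℕ) : pr P D (T y) l =
      (((1 / (P l : ℝ) : ℝ) : ℂ) • hh P D y l,
        (-((1 / (P (l + 1) : ℝ) : ℝ) : ℂ)) • hh P D y (l + 1)) := by
  have h1 : HasSum (fun k => (TT P D k y) l) ((T y) l) :=
    (lp.evalCLM ℂ (fun k => LV (D k)) 2 l).hasSum (hT y)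
  have h2 : HasSum (fun k => (TT P D k y) l) ((TT P D l y) l) :=
    hasSum_single l fun k hk => emb_ne P D hk.symm _
  have h3 : (T y) l = (TT P D l y) l := h1.unique h2
  unfold pr
  rw [h3]
  unfold TT
  rw [emb_same, LinearEquiv.apply_symm_apply]

theorem hh_T_succ (T : XX P D →L[ℂ] XX P D) (hT : ∀ y, HasSum (fun k => TT P D k y) (T y))
    (y : XX P D) (k : ℕ) : hh P D (T y) (k + 1) = 0 := by
  show (pr P D (T y) k).2 + (pr P D (T y) (k + 1)).1 = 0
  rw [T_coord P D T hT, T_coord P D T hT]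
  show (-((1 / (P (k + 1) : ℝ) : ℝ) : ℂ)) • hh P D y (k + 1) +
    ((1 / (P (k + 1) : ℝ) : ℝ) : ℂ) • hh P D y (k + 1) = 0
  rw [neg_smul, neg_add_cancel]

theorem hh_T_zero (hP : P 0 = 1) (T : XX P D →L[ℂ] XX P D)
    (hT : ∀ y, HasSum (fun k => TT P D k y) (T y)) (y : XX P D) :
    hh P D (T y) 0 = (pr P D y 0).1 := by
  show (pr P D (T y) 0).1 = (pr P D y 0).1
  rw [T_coord P D T hT]
  show ((1 / (P 0 : ℝ) : ℝ) : ℂ) • hh P D y 0 = (pr P D y 0).1
  have h : (1 / (P 0 : ℝ) : ℝ) = 1 := by rw [hP]; simp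
  rw [h, Complex.ofReal_one, one_smul]
  rfl

/-- The first component of the level `0`. -/
def Lz : XX P D →ₗ[ℂ] (Fin (P 0) → ℂ) :=
  (LinearMap.fst ℂ _ _) ∘ₗ (toPair (D 0)).toLinearMap ∘ₗ
    ((lp.evalCLM ℂ (fun k => LV (D k)) 2 0 : XX P D →L[ℂ] LV (D 0)) : XX P D →ₗ[ℂ] LV (D 0))

theorem Lz_apply (x : XX P D) : Lz P D x = (pr P D x 0).1 := rfl

/-- The inclusion of the first component of the level `0`. -/
def Rz : (Fin (P 0) → ℂ) →ₗ[ℂ] XX P D :=
  ((emb P D 0 : LV (D 0) →L[ℂ] XX P D) : LV (D 0) →ₗ[ℂ] XX P D) ∘ₗ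
    (toPair (D 0)).symm.toLinearMap ∘ₗ (LinearMap.inl ℂ _ _)

theorem Rz_apply (v : Fin (P 0) → ℂ) : Rz P D v = emb P D 0 ((toPair (D 0)).symm (v, 0)) := rfl

theorem LR (v : Fin (P 0) → ℂ) : Lz P D (Rz P D v) = v := by
  rw [Lz_apply, Rz_apply]
  unfold pr
  rw [emb_same, LinearEquiv.apply_symm_apply]

theorem TT_eq (hP : P 0 = 1) (T : XX P D →L[ℂ] XX P D)
    (hT : ∀ y, HasSum (fun k => TT P D k y) (T y)) (y : XX P D) :
    T (T y) = Rz P D (Lz P D y) := by
  have hcoord : ∀ l, pr P D (T (T y)) l = pr P D (Rz P D (Lz P D y)) l := by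
    intro l
    rw [T_coord P D T hT, hh_T_succ P D T hT, smul_zero, Rz_apply]
    cases l with
    | zero =>
      rw [hh_T_zero P D hP T hT]
      have h : (1 / (P 0 : ℝ) : ℝ) = 1 := by rw [hP]; simp
      rw [h, Complex.ofReal_one, one_smul]
      unfold pr
      rw [emb_same, LinearEquiv.apply_symm_apply]
      rfl
    | succ l =>
      rw [hh_T_succ P D T hT, smul_zero]
      unfold pr
      rw [emb_ne P D (Nat.succ_ne_zero l), map_zero]
      rfl
  ext1
  funext l
  exact (toPair (D l)).injective (hcoord l)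

end coords

theorem tsq (_h : S_LP2) : S_TSQ := by
  intro P D hP0 _ T hT
  have h1 := TT_eq P D hP0 T hT
  refine ⟨fun y => ?_, ?_⟩
  · rw [h1 (T y), h1 y]
    congr 1
    exact hh_T_zero P D hP0 T hT y
  · have h2 : ((T.comp T : XX P D →L[ℂ] XX P D) : XX P D →ₗ[ℂ] XX P D) =
        Rz P D ∘ₗ Lz P D := by
      ext1 y
      exact h1 y
    have hs : Function.Surjective (Lz P D) := fun v => ⟨Rz P D v, LR P D v⟩
    have hi : Function.Injective (Rz P D) :=
      Function.LeftInverse.injective (g := Lz P D) (LR P D)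
    rw [h2, LinearMap.range_comp_of_range_eq_top _ (LinearMap.range_eq_top.2 hs),
      LinearMap.finrank_range_of_inj hi, Module.finrank_fin_fun, hP0]

end Pool.Agent.Helper50.HL
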